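import Mathlib

set_option autoImplicit false

namespace Pool.Agent.Results.MP_7aff4e_co.RationalTanSq
open Finset
open scoped Classical

/-- the number of neighbours of `v` in `S` -/
noncomputable def deg {V : Type} (G : SimpleGraph V) (S : Finset V) (v : V) : ℕ :=
  (S.filter (G.Adj v)).card

/-- the bipartition `S`, `Sᶜ` is equitable -/
def Equitable {V : Type} [Fintype V] (G : SimpleGraph V) (S : Finset V) : Prop :=
  (∀ i ∈ S, ∀ j ∈ S, deg G S i = deg G S j ∧ deg G Sᶜ i = deg G Sᶜ j) ∧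
  (∀ i ∈ Sᶜ, ∀ j ∈ Sᶜ, deg G S i = deg G S j ∧ deg G Sᶜ i = deg G Sᶜ j)

/-- the linear degree condition -/
def Linear {V : Type} [Fintype V] (G : SimpleGraph V) (S : Finset V) (m₁ m₂ r : ℝ) : Prop :=
  (∀ i ∈ S, -(deg G S i : ℝ) + m₁ * deg G Sᶜ i = r) ∧
  (∀ j ∈ Sᶜ, -(deg G Sᶜ j : ℝ) + m₂ * deg G S j = r)

def Realisable (α : ℝ) : Prop :=
  ∃ (V : Type) (_ : Fintype V) (G : SimpleGraph V) (S : Finset V) (m₁ m₂ r : ℝ),
    G.Connected ∧ S.Nonempty ∧ Sᶜ.Nonempty ∧ ¬ Equitable G S ∧ Linear G S m₁ m₂ r ∧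
    |m₁ + m₂| < 2 ∧ m₂ < m₁ ∧ α = Real.arctan (√(4 - (m₁ + m₂) ^ 2) / (m₁ - m₂))

theorem rat_of {V : Type} (G : SimpleGraph V) (S T : Finset V) (m₁ m₂ r : ℝ)
    (h1 : ∀ i ∈ S, -(deg G S i : ℝ) + m₁ * deg G T i = r)
    (h2 : ∀ j ∈ T, -(deg G T j : ℝ) + m₂ * deg G S j = r) (h3 : ∃ j ∈ T, ∃ i ∈ S, G.Adj j i)
    (h4 : ¬ ∀ i ∈ S, ∀ j ∈ S, deg G S i = deg G S j ∧ deg G T i = deg G T j) :
    ∃ a b : ℚ, m₁ = a ∧ m₂ = b := by
  push Not at h4
  obtain ⟨i, hi, i', hi', h⟩ := h4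
  obtain ⟨j, hj, k, hk, e⟩ := h3
  have e1 := h1 i hi
  have e2 := h1 i' hi'
  have e3 := h2 j hj
  have h5 : (deg G T i : ℝ) - deg G T i' ≠ 0 := by
    intro h0
    refine h ?_ (by exact_mod_cast sub_eq_zero.1 h0)
    rw [sub_eq_zero.1 h0] at e1
    exact_mod_cast (show (deg G S i : ℝ) = deg G S i' by linarith)
  have h6 : (deg G S j : ℝ) ≠ 0 := Nat.cast_ne_zero.2 (card_ne_zero_of_mem (mem_filter.2 ⟨hk, e⟩))
  obtain ⟨a, rfl⟩ : ∃ a : ℚ, m₁ = a :=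
    ⟨((deg G S i : ℚ) - deg G S i') / (deg G T i - deg G T i'), by
      push_cast; rw [eq_div_iff h5]; linarith⟩
  refine ⟨a, (-(deg G S i : ℚ) + a * deg G T i + deg G T j) / deg G S j, rfl, ?_⟩
  push_cast
  rw [eq_div_iff h6]
  linarith

def D (a b c : ℕ) : Fin 7 → Fin 7 → ℕ :=
  ![![0, a, 0, 0, c, 0, 0], ![a, 0, 0, 0, c, 0, 0], ![0, 0, 0, 2 * a, 0, 2 * c, 0],
    ![0, 0, 2 * a, 0, 0, 0, 2 * c], ![c, c, 0, 0, 0, b, b], ![0, 0, 2 * c, 0, b, 0, b],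
    ![0, 0, 0, 2 * c, b, b, 0]]

def blk (a b c n : ℕ) : SimpleGraph (Fin 7 × Fin (n + 1)) where
  Adj u v := (u.2 + v.2).1 < D a b c u.1 v.1
  symm := ⟨fun u v h => by
    have : D a b c v.1 u.1 = D a b c u.1 v.1 := by
      generalize u.1 = x, v.1 = y
      fin_cases x <;> fin_cases y <;> rfl
    rwa [add_comm v.2, this]⟩
  loopless := ⟨fun u h => by
    have : D a b c u.1 u.1 = 0 := by
      generalize u.1 = x
      fin_cases x <;> rfl
    rw [this] at h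
    exact Nat.not_lt_zero _ h⟩

theorem deg_blk (a b c n : ℕ) (h : 2 * (a + b + c) ≤ n) (B : Finset (Fin 7))
    (S : Finset (Fin 7 × Fin (n + 1))) (hS : ∀ u, u ∈ S ↔ u.1 ∈ B) (u : Fin 7 × Fin (n + 1)) :
    deg (blk a b c n) S u = ∑ y ∈ B, D a b c u.1 y := by
  rw [show S = B ×ˢ univ by ext; simp [hS], deg, card_filter, sum_product]
  refine sum_congr rfl fun y _ => ?_
  have h1 : D a b c u.1 y ≤ n + 1 := by
    generalize u.1 = x
    fin_cases x <;> fin_cases y <;> simp [D] <;> omega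
  rw [← Equiv.sum_comp (Equiv.addLeft (-u.2)), ← card_filter]
  simp [blk, Fin.card_filter_val_lt, h1]

theorem conn (a b c n : ℕ) (ha : 2 ≤ a) (hb : 2 ≤ b) (hc : 2 ≤ c) : (blk a b c n).Connected := by
  have h0 : ∀ x y, 2 ≤ D a b c x y → ∀ i, (blk a b c n).Reachable (x, i) (y, -i) := by
    intro x y h i
    refine SimpleGraph.Adj.reachable (show (i + -i).1 < D a b c x y from ?_)
    simp; omega
  have h1 : ∀ x i, (blk a b c n).Reachable (x, 0) (x, i) := by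
    intro x i
    obtain ⟨y, h⟩ : ∃ y, 2 ≤ D a b c x y := by
      fin_cases x
      exacts [⟨1, ha⟩, ⟨0, ha⟩, ⟨3, by simp [D]; omega⟩, ⟨2, by simp [D]; omega⟩, ⟨5, hb⟩, ⟨4, hb⟩,
        ⟨4, hb⟩]
    induction i using Fin.induction with
    | zero => rfl
    | succ i ih =>
      refine (ih.trans (h0 x y h _)).trans (SimpleGraph.Adj.reachable (SimpleGraph.Adj.symm
        (show (i.succ + -i.castSucc).1 < D a b c x y from ?_)))
      rw [← Fin.coeSucc_eq_succ, add_neg_cancel_comm]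
      exact (Nat.mod_le 1 _).trans_lt h
  have h2 : ∀ x y, 2 ≤ D a b c x y → (blk a b c n).Reachable (x, 0) (y, 0) :=
    fun x y h => by simpa using h0 x y h 0
  rw [SimpleGraph.connected_iff_exists_forall_reachable]
  refine ⟨(4, 0), fun ⟨x, i⟩ => .trans ?_ (h1 x i)⟩
  fin_cases x
  exacts [h2 4 0 hc, h2 4 1 hc, (h2 4 5 hb).trans (h2 5 2 (by simp [D]; omega)),
    (h2 4 6 hb).trans (h2 6 3 (by simp [D]; omega)), .refl _, h2 4 5 hb, h2 4 6 hb]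

theorem result (α : ℝ) (hα : α ∈ Set.Ioo 0 (Real.pi / 2)) :
    Realisable α ↔ ∃ q : ℚ, Real.tan α ^ 2 = q := by
  constructor
  · rintro ⟨V, _, G, S, m₁, m₂, r, hc, ⟨s, hs⟩, ⟨t, ht⟩, h1, h2, h3, h4, rfl⟩
    obtain ⟨p⟩ := hc.preconnected s t
    obtain ⟨d, -, d1, d2⟩ := p.exists_boundary_dart (S : Set V) hs (mem_compl.1 ht)
    obtain ⟨a, b, rfl, rfl⟩ : ∃ a b : ℚ, m₁ = a ∧ m₂ = b := by
      rcases not_and_or.1 h1 with h | h
      · exact rat_of G S Sᶜ _ _ r h2.1 h2.2 ⟨_, mem_compl.2 d2, _, d1, d.adj.symm⟩ h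
      · obtain ⟨a, b, h⟩ := rat_of G Sᶜ S _ _ r h2.2 h2.1 ⟨_, d1, _, mem_compl.2 d2, d.adj⟩
          (by simpa only [and_comm] using h)
        exact ⟨b, a, h.symm⟩
    refine ⟨(4 - (a + b) ^ 2) / (a - b) ^ 2, ?_⟩
    rw [Real.tan_arctan, div_pow, Real.sq_sqrt (by nlinarith [abs_lt.1 h3])]
    push_cast
    rfl
  · rintro ⟨q, hq⟩
    have ht := Real.tan_pos_of_pos_of_lt_pi_div_two hα.1 hα.2
    have hq0 : 0 < q := by exact_mod_cast (hq ▸ pow_pos ht 2 : (0 : ℝ) < q)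
    obtain ⟨u, v, hu, hv, huv⟩ : ∃ u v : ℕ, 0 < u ∧ 0 < v ∧ (q : ℝ) * v = u := by
      obtain ⟨u, hu⟩ := Int.eq_ofNat_of_zero_le (Rat.num_pos.2 hq0).le
      refine ⟨u, q.den, by have := Rat.num_pos.2 hq0; omega, q.den_pos, ?_⟩
      exact_mod_cast (show q * q.den = (u : ℤ) by rw [← hu]; simp)
    obtain ⟨b, hb⟩ := Nat.exists_eq_add_of_le
      (show u + 2 ≤ v * (u + 3) * (u + 1) by nlinarith [Nat.mul_le_mul hv (le_refl ((u + 3) * (u + 1)))])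
    have hb' : (v : ℝ) * (u + 3) * (u + 1) = u + 2 + b := by exact_mod_cast hb
    obtain ⟨a, ha⟩ : ∃ a : ℕ, a = b + 2 + 4 * (v * (u + 3)) := ⟨_, rfl⟩
    obtain ⟨c, hc⟩ : ∃ c : ℕ, c = b + 2 + 2 * (v * (u + 3)) + 2 * u := ⟨_, rfl⟩
    have ha' : (a : ℝ) = b + 2 + 4 * (v * (u + 3)) := by exact_mod_cast ha
    have hc' : (c : ℝ) = b + 2 + 2 * (v * (u + 3)) + 2 * u := by exact_mod_cast hc
    have c0 : (0 : ℝ) < c := by rw [hc']; positivity
    have u0 : (0 : ℝ) < u := by exact_mod_cast hu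
    have v0 : (0 : ℝ) < v := by exact_mod_cast hv
    have e1 : (a : ℝ) / c + (b + 2) / c = 2 - 4 * u / c := by
      field_simp
      linarith
    have e2 : (a : ℝ) / c - (b + 2) / c = 4 * (v * (u + 3)) / c := by
      field_simp
      linarith
    refine ⟨_, inferInstance, blk a (b + 2) c (2 * (a + (b + 2) + c)), {0, 1, 2, 3} ×ˢ univ,
      a / c, (b + 2) / c, 0, conn _ _ _ _ (by omega) (by omega) (by omega), ⟨(0, 0), by simp⟩,
      ⟨(4, 0), by simp⟩, fun h => ?_, ⟨?_, ?_⟩, ?_, ?_, ?_⟩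
    · have := (h.1 (0, 0) (by simp) (2, 0) (by simp)).1
      simp only [deg_blk _ _ _ _ le_rfl {0, 1, 2, 3} ({0, 1, 2, 3} ×ˢ univ) (by simp)] at this
      simp [D] at this
      omega
    · rintro ⟨x, i⟩ h
      rw [deg_blk _ _ _ _ le_rfl {0, 1, 2, 3} ({0, 1, 2, 3} ×ˢ univ) (by simp),
        deg_blk _ _ _ _ le_rfl {4, 5, 6} _ (by rintro ⟨x, i⟩; fin_cases x <;> simp)]
      fin_cases x <;> simp [D] at h ⊢ <;> field_simp <;> ring
    · rintro ⟨x, i⟩ h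
      rw [deg_blk _ _ _ _ le_rfl {0, 1, 2, 3} ({0, 1, 2, 3} ×ˢ univ) (by simp),
        deg_blk _ _ _ _ le_rfl {4, 5, 6} _ (by rintro ⟨x, i⟩; fin_cases x <;> simp)]
      fin_cases x <;> simp [D] at h ⊢ <;> field_simp <;> ring
    · have : 0 < (a : ℝ) / c + (b + 2) / c := by positivity
      have : 0 < 4 * (u : ℝ) / c := by positivity
      rw [abs_lt]
      constructor <;> linarith
    · have : 0 < 4 * ((v : ℝ) * (u + 3)) / c := by positivity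
      linarith
    · rw [← Real.arctan_tan (x := α) (by linarith [hα.1, hα.2]) hα.2, e1, e2]
      congr 1
      rw [eq_div_iff (by positivity), eq_comm, Real.sqrt_eq_iff_mul_self_eq_of_pos (by positivity)]
      field_simp
      rw [hq]
      linear_combination (16 * v * (u + 3) ^ 2) * huv - 16 * u * hc' + 16 * u * hb'

end Pool.Agent.Results.MP_7aff4e_co.RationalTanSq
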